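import Pool.Agent.helper66.TauFinal

/-!
# `S₁(B_T, B_T)` is preserved under finite (and countable) unions, without extra axioms

For a set of reals `X` one shows `S₁(B_T, B_T) = S₁(B_T, B_Γ)`, by alternating covers of the two pieces
of a Borel partition of `X` and a `0`-`1` argument along the real line; and `S₁(B_T, B_Γ)` is preserved
under countable unions.
-/

set_option autoImplicit false

namespace Pool.Agent.Results.MP_9c4169_gt.BorelS1TauTau

open Pool.Agent.TauSel

/-- The property `S₁(B_T, B_T)` of sets of reals is preserved under finite unions, and under unions
of countably many sets. -/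
theorem result :
    PreservedUnderFiniteUnions (fun X : Set ℝ => S1 (BorelTau X) (BorelTau X)) ∧
    PreservedUnderCountableUnions (fun X : Set ℝ => S1 (BorelTau X) (BorelTau X)) :=
  ⟨finite_of_countable_unions additive_S1_borelTau_borelTau, additive_S1_borelTau_borelTau⟩

end Pool.Agent.Results.MP_9c4169_gt.BorelS1TauTau
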