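import Pool.Agent.helper66.TauFinal

/-!
# `S₁(Γ, T)` is preserved under finite (and countable) unions, without extra axioms

Idea. Let `X` be a set of reals with `S₁(Γ, T)`. If `X = X₁ ∪ X₂` is a partition into relatively
clopen sets, then `X₁` or `X₂` has `S₁(Γ, Γ)`: given bad sequences of covers `(𝒰ₙ)` of `X₁` and `(𝒱ₙ)`
of `X₂`, apply `S₁(Γ, T)` to the covers `{U ∪ X₂ : U ∈ 𝒰ₙ}` for the even and `{V ∪ X₁ : V ∈ 𝒱ₙ}` for
the odd numbers (points being removed to keep the selected sets distinct); the selected `τ`-cover cannot
be split both ways. As `S₁(Γ, Γ)` is preserved under countable unions and the complement of `X` is dense,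
a `0`-`1` argument along the real line shows that `X` itself has `S₁(Γ, Γ)`.
-/

set_option autoImplicit false

namespace Pool.Agent.Results.MP_9c4169_gt.S1GammaTau

open Pool.Agent.TauSel

/-- The property `S₁(Γ, T)` of sets of reals is preserved under finite unions, and under unions of
countably many sets. -/
theorem result :
    PreservedUnderFiniteUnions (fun X : Set ℝ => S1 (OpenGamma X) (OpenTau X)) ∧
    PreservedUnderCountableUnions (fun X : Set ℝ => S1 (OpenGamma X) (OpenTau X)) :=
  ⟨finite_of_countable_unions additive_S1_openGamma_openTau, additive_S1_openGamma_openTau⟩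

end Pool.Agent.Results.MP_9c4169_gt.S1GammaTau
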