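import Pool.Agent.helper66.TauFinal

/-!
# `S₁(T, T)` is preserved under finite (and countable) unions, without extra axioms

For a set of reals `X` one shows `S₁(T, T) = S₁(T, Γ)`, by alternating covers of the two pieces of a
clopen partition of `X` and a `0`-`1` argument along the real line; and `S₁(T, Γ)` is preserved under
countable unions.
-/

set_option autoImplicit false

namespace Pool.Agent.Results.MP_9c4169_gt.S1TauTau

open Pool.Agent.TauSel

/-- The property `S₁(T, T)` of sets of reals is preserved under finite unions, and under unions of
countably many sets. -/
theorem result :
    PreservedUnderFiniteUnions (fun X : Set ℝ => S1 (OpenTau X) (OpenTau X)) ∧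
    PreservedUnderCountableUnions (fun X : Set ℝ => S1 (OpenTau X) (OpenTau X)) :=
  ⟨finite_of_countable_unions additive_S1_openTau_openTau, additive_S1_openTau_openTau⟩

end Pool.Agent.Results.MP_9c4169_gt.S1TauTau
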